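import Pool.Agent.H39.MT.CDefs
import Pool.Agent.H73.MT.QForm

/-!
# Project MT (MP_5140a6_co), 5.2: independence and the formula for `Y V`
-/

namespace Pool.Agent.MT

open Module Submodule

variable {d : ℕ}

theorem Comp.isQForm {VV : Set (Submodule ℝ (Sp d))} {EE : Submodule ℝ (Sp d)}
    {Y : Submodule ℝ (Sp d) → Submodule ℚ (Sp d)} {L : Submodule ℚ (Sp d)}
    (hL : Comp VV EE Y L) (hEE : EE ∈ VV) : H73.MT.IsQForm L := by
  refine ⟨hL.fin, ?_⟩
  have h1 := hL.span EE hEE
  rw [inf_eq_left.mpr hL.le] at h1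
  change finrank ℝ (rs L) = finrank ℚ L
  rw [h1, hL.rank]

theorem Comp.indep {VV : Set (Submodule ℝ (Sp d))} {EE : Submodule ℝ (Sp d)}
    {Y : Submodule ℝ (Sp d) → Submodule ℚ (Sp d)} {L : Submodule ℚ (Sp d)}
    (hL : Comp VV EE Y L) (hEE : EE ∈ VV) {ι : Type*} (x : ι → Sp d) (hx : ∀ i, x i ∈ L)
    (hi : LinearIndependent ℚ x) : LinearIndependent ℝ x := by
  classical
  have hQ := hL.isQForm hEE
  have := hL.fin
  -- `ι` is finite
  have hi' : LinearIndependent ℚ (fun i => (⟨x i, hx i⟩ : L)) := by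
    refine LinearIndependent.of_comp L.subtype ?_
    exact hi
  have hfin : Finite ι := hi'.finite
  have := Fintype.ofFinite ι
  have hM : Submodule.span ℚ (Set.range x) ≤ L := by
    rw [span_le]
    rintro _ ⟨i, rfl⟩
    exact hx i
  have h1 := (hQ.of_le hM).rk
  rw [finrank_span_eq_card hi] at h1
  have h2 : Submodule.span ℝ ((Submodule.span ℚ (Set.range x) : Submodule ℚ (Sp d)) : Set (Sp d))
      = Submodule.span ℝ (Set.range x) := by
    apply le_antisymm
    · rw [span_le]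
      intro y hy
      exact (Submodule.span_le_restrictScalars ℚ ℝ _ : _) hy
    · exact span_mono subset_span
  rw [h2] at h1
  rw [linearIndependent_iff_card_eq_finrank_span]
  exact h1.symm

theorem Comp.Y_le {S : Finset (Sp d)} {FD : Set (Submodule ℝ (Sp d) × (Sp d → ℝ))}
    {VV : Set (Submodule ℝ (Sp d))} {EE : Submodule ℝ (Sp d)}
    {Y : Submodule ℝ (Sp d) → Submodule ℚ (Sp d)} (hS : Struc S FD VV EE Y)
    {L : Submodule ℚ (Sp d)} (hL : Comp VV EE Y L) {V : Submodule ℝ (Sp d)} (hV : V ∈ VV) :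
    Y V = (L ⊓ rq (rs (Y V))) ⊔ rq V := by
  have hQ := hL.isQForm hS.top_mem
  have := hL.fin
  have hVY := hS.le_Y V hV
  have hVr : V ≤ rs (Y V) := fun v hv => Submodule.subset_span (hVY hv)
  have hP := hS.pl_mem V hV
  set P := rs (Y V) with hPdef
  have := hS.fd V hV
  -- dimensions
  have f1 : finrank ℚ (L ⊓ rq P : Submodule ℚ (Sp d)) = finrank ℝ P :=
    hQ.finrank_part (W := P) (hL.span P hP)
  have f2 : finrank ℚ (L ⊓ rq V : Submodule ℚ (Sp d)) = finrank ℝ V :=
    hQ.finrank_part (W := V) (hL.span V hV)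
  have hle : (L ⊓ rq P) ⊔ rq V ≤ Y V := sup_le (hL.comp V hV) hVY
  let φ : Sp d →ₗ[ℚ] (Sp d ⧸ V) := V.mkQ.restrictScalars ℚ
  have hφ : ∀ x, φ x = 0 ↔ x ∈ V := fun x => by
    change V.mkQ x = 0 ↔ _
    rw [mkQ_apply, Submodule.Quotient.mk_eq_zero]
  -- the image of `L ⊓ P`
  have fA : Module.Finite ℚ (L ⊓ rq P : Submodule ℚ (Sp d)) :=
    Submodule.finiteDimensional_of_le (inf_le_left : _ ≤ L)
  have h3 : finrank ℚ ((L ⊓ rq P).map φ) + finrank ℚ (L ⊓ rq V : Submodule ℚ (Sp d))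
      = finrank ℚ (L ⊓ rq P : Submodule ℚ (Sp d)) := by
    have h4 := LinearMap.finrank_range_add_finrank_ker (φ.domRestrict (L ⊓ rq P))
    have h5 : LinearMap.range (φ.domRestrict (L ⊓ rq P)) = (L ⊓ rq P).map φ := by
      rw [LinearMap.range_domRestrict]
    have h6 : finrank ℚ (LinearMap.ker (φ.domRestrict (L ⊓ rq P)))
        = finrank ℚ (L ⊓ rq V : Submodule ℚ (Sp d)) := by
      have h7 : (LinearMap.ker (φ.domRestrict (L ⊓ rq P))).map (L ⊓ rq P).subtype
          = L ⊓ rq V := by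
        ext x
        simp only [Submodule.mem_map, LinearMap.mem_ker, LinearMap.domRestrict_apply,
          Submodule.subtype_apply, Subtype.exists, exists_and_right, exists_eq_right]
        constructor
        · rintro ⟨h8, h9⟩
          exact ⟨h8.1, (hφ x).mp h9⟩
        · rintro ⟨h8, h9⟩
          exact ⟨⟨h8, hVr h9⟩, (hφ x).mpr h9⟩
      rw [← h7]
      exact (Submodule.finrank_map_subtype_eq _ _).symm
    rw [h5, h6] at h4
    exact h4
  have h4 : (L ⊓ rq P).map φ = (Y V).map φ := by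
    refine Submodule.eq_of_le_of_finrank_le (Submodule.map_mono (hL.comp V hV)) ?_
    have := hS.form V hV
    change finrank ℚ ((Y V).map φ) ≤ _
    change finrank ℝ V + finrank ℚ ((Y V).map φ) = finrank ℝ P at this
    omega
  refine le_antisymm ?_ hle
  intro y hy
  have h5 : φ y ∈ (L ⊓ rq P).map φ := by
    rw [h4]; exact Submodule.mem_map_of_mem hy
  obtain ⟨l, hl, h6⟩ := h5
  have h7 : y - l ∈ V := by
    rw [← hφ, map_sub, h6, sub_self]
  have h8 : y = l + (y - l) := by abel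
  rw [h8]
  exact Submodule.add_mem_sup hl h7

end Pool.Agent.MT
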